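import Pool.Agent.helper19.MX.SpecC

/-!
# Project mx (MP_a875de_ag), row BSN
-/

set_option linter.unusedVariables false

namespace MX

open Pool.Agent.helper53.AU AN
open scoped Classical Topology

noncomputable section

section

variable {k F : Type} [Field k] [Field F] [Algebra k F]

theorem BSN_mem (D : Place k F →₀ ℤ) (f : F) : f ∈ RR D ↔ ∀ Q : Place k F, Q.Ge (-D Q) f := by
  constructor
  · rintro (h | h) Q
    · exact Or.inl h
    · exact Or.inr (h Q)
  · intro h
    by_cases hf : f = 0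
    · exact Or.inl hf
    · right
      intro Q
      exact (h Q).le hf

theorem BSN_single (P : Place k F) (m : ℤ) (f : F) :
    f ∈ RR (Finsupp.single P m) ↔ P.Ge (-m) f ∧ ∀ Q : Place k F, Q ≠ P → Q.Ge 0 f := by
  rw [BSN_mem]
  constructor
  · intro h
    refine ⟨?_, ?_⟩
    · have h1 := h P
      rwa [Finsupp.single_eq_same] at h1
    · intro Q hQ
      have h1 := h Q
      rwa [Finsupp.single_eq_of_ne hQ, neg_zero] at h1
  · rintro ⟨h1, h2⟩ Q
    by_cases hQ : Q = P
    · subst hQ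
      rwa [Finsupp.single_eq_same]
    · rw [Finsupp.single_eq_of_ne hQ, neg_zero]
      exact h2 Q hQ

theorem BSN_transport (hTPL : TPL_stmt) (β : F ≃+* F)
    (hβ : ∀ c : k, ∃ c' : k, β (algebraMap k F c) = algebraMap k F c') (P P' : Place k F)
    (hP : ∀ f : F, P'.ord (β f) = P.ord f) (m : ℤ) (f : F)
    (hf : f ∈ RR (Finsupp.single P m)) : β f ∈ RR (Finsupp.single P' m) := by
  rw [BSN_single] at hf ⊢
  obtain ⟨h1, h2⟩ := hf
  refine ⟨?_, ?_⟩
  · rcases h1 with h | h
    · left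
      rw [h, map_zero]
    · right
      rw [hP]
      exact h
  · intro Q hQ
    obtain ⟨Q', hQ'⟩ := hTPL k F β.symm (by
      intro c
      obtain ⟨c', hc'⟩ := hβ c
      exact ⟨c', by rw [RingEquiv.symm_symm]; exact hc'⟩) Q
    have hne : Q' ≠ P := by
      intro h
      apply hQ
      apply Place.ext
      funext x
      have h3 := hQ' x
      rw [h] at h3
      rw [← h3, ← hP (β.symm x), RingEquiv.apply_symm_apply]
    rcases h2 Q' hne with h | h
    · left
      rw [h, map_zero]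
    · right
      have h3 := hQ' (β f)
      rw [RingEquiv.symm_apply_apply] at h3
      rw [← h3]
      exact h

theorem BSN_le_zero [IsAlgClosed k] (hQV4 : QV4_stmt) (hQV5 : QV5_stmt) (hF : IsFF k F)
    (P : Place k F) (f : F) (hf : f ≠ 0) (h : ∀ Q : Place k F, Q ≠ P → Q.Ge 0 f) :
    P.ord f ≤ 0 := by
  by_contra hcon
  push Not at hcon
  have hfin := hQV4 k F hF f hf
  have h1 := hQV5 k F hF f hf
  rw [finsum_eq_sum _ hfin] at h1
  have hmem : P ∈ hfin.toFinset := by
    rw [Set.Finite.mem_toFinset, Function.mem_support]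
    exact ne_of_gt hcon
  have h2 : P.ord f ≤ ∑ Q ∈ hfin.toFinset, Q.ord f := by
    apply Finset.single_le_sum (f := fun Q : Place k F => Q.ord f) _ hmem
    intro Q _
    by_cases hQ : Q = P
    · rw [hQ]
      exact hcon.le
    · exact (h Q hQ).le hf
  omega

theorem BSN_place [IsAlgClosed k] (hQR1 : QR1_stmt) (hF : IsFF k F) : Nonempty (Place k F) := by
  by_contra hcon
  rw [not_nonempty_iff] at hcon
  have hfd := (hQR1 k F hF).1 0
  have htop : RR (0 : Place k F →₀ ℤ) = ⊤ := by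
    rw [eq_top_iff]
    intro f _
    right
    intro P
    exact (hcon.false P).elim
  rw [htop] at hfd
  have hfd2 : FiniteDimensional k F := by
    exact Module.Finite.equiv (Submodule.topEquiv (R := k) (M := F))
  obtain ⟨x, hx, _⟩ := hF
  exact hx (Algebra.IsAlgebraic.isAlgebraic x)

theorem BSN_deg (P : Place k F) (m : ℤ) : degD (Finsupp.single P m) = m := by
  unfold degD
  rw [Finsupp.sum_single_index rfl]

theorem BSN_degadd (D D' : Place k F →₀ ℤ) : degD (D + D') = degD D + degD D' := by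
  unfold degD
  rw [Finsupp.sum_add_index' (fun _ => rfl) (fun _ _ _ => rfl)]

theorem BSN_inj (p : ℕ) [Fact p.Prime] [CharP k p] (n : ℕ) {c d : k}
    (h : c ^ (p ^ n) = d ^ (p ^ n)) : c = d := by
  have h1 : iterateFrobenius k p n c = iterateFrobenius k p n d := by
    rw [iterateFrobenius_def, iterateFrobenius_def]
    exact h
  exact (iterateFrobenius k p n).injective h1

/-- distinct orders: the sum is not zero -/
theorem BSN_ne {a : ℕ} (l : ℕ) (hl : 0 < l) (P : Place k F) (s u : Fin a → F) (o : Fin a → ℤ)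
    (ho : Function.Injective o) (hs0 : ∃ j, s j ≠ 0) (hs : ∀ j, s j ≠ 0 → -((l : ℤ) - 1) ≤ P.ord (s j))
    (hs' : ∀ j, s j ≠ 0 → P.ord (s j) ≤ 0) (hu : ∀ j, u j ≠ 0) (huo : ∀ j, P.ord (u j) = l * o j) :
    ∑ j, s j * u j ≠ 0 := by
  have hne : (Finset.univ.filter fun j : Fin a => s j ≠ 0).Nonempty := by
    obtain ⟨j, hj⟩ := hs0
    exact ⟨j, by simpa using hj⟩
  obtain ⟨j₀, hj₀, hmin⟩ := Finset.exists_min_image (Finset.univ.filter fun j : Fin a => s j ≠ 0) o hne
  have hs₀ : s j₀ ≠ 0 := by simpa using hj₀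
  have hord : ∀ j, s j ≠ 0 → P.ord (s j * u j) = P.ord (s j) + l * o j := by
    intro j hj
    rw [P.ord_mul _ _ hj (hu j), huo]
  rw [← Finset.add_sum_erase _ _ (Finset.mem_univ j₀)]
  have hrest : P.Ge (P.ord (s j₀ * u j₀) + 1) (∑ x ∈ Finset.univ.erase j₀, s x * u x) := by
    apply Place.Ge.sum
    intro j hj
    by_cases hsj : s j = 0
    · left
      rw [hsj, zero_mul]
    · right
      rw [hord j hsj, hord j₀ hs₀]
      have h1 := hs j hsj
      have h2 := hs' j₀ hs₀
      have h3 : o j₀ ≤ o j := hmin j (by simpa using hsj)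
      have h4 : o j₀ ≠ o j := by
        intro h
        exact (Finset.ne_of_mem_erase hj) (ho h).symm
      have h5 : o j₀ + 1 ≤ o j := by omega
      have h6 : (l : ℤ) * (o j₀ + 1) ≤ l * o j := mul_le_mul_of_nonneg_left h5 (by omega)
      linarith
  exact (Place.ord_add_eq (mul_ne_zero hs₀ (hu j₀)) hrest).1

end

theorem BSN (hQV4 : QV4_stmt) (hQV5 : QV5_stmt) (hQR1 : QR1_stmt) (hQR3 : QR3_stmt)
    (hBSE : BSE_stmt) (hSLK : SLK_stmt) (hTPL : TPL_stmt) : BSN_stmt := by
  intro p _ k F _ _ _ _ _ hF g hg n l hl hgl α hα τ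
  have hchF : CharP F p := charP_of_injective_algebraMap (algebraMap k F).injective p
  obtain ⟨P⟩ := BSN_place hQR1 hF
  -- constants
  have hα1 : ∀ c : k, ∃ c' : k, α (algebraMap k F c) = algebraMap k F c' := by
    intro c
    obtain ⟨c', h, _⟩ := hα c
    exact ⟨c', h⟩
  have hα2 : ∀ c : k, ∃ c' : k, α.symm (algebraMap k F c) = algebraMap k F c' := by
    intro c
    obtain ⟨c', h, h2⟩ := hα (c ^ (l ^ 2))
    have h3 : c' = c := by
      have h4 : l ^ 2 = p ^ (n * 2) := by rw [hl, pow_mul]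
      rw [h4] at h2
      exact BSN_inj p _ h2
    refine ⟨c ^ (l ^ 2), ?_⟩
    rw [h3] at h
    rw [← h, RingEquiv.symm_apply_apply]
  have hτ1 : ∀ c : k, ∃ c' : k, τ.toRingEquiv (algebraMap k F c) = algebraMap k F c' :=
    fun c => ⟨c, τ.commutes c⟩
  have hτ2 : ∀ c : k, ∃ c' : k, τ.toRingEquiv.symm (algebraMap k F c) = algebraMap k F c' :=
    fun c => ⟨c, τ.symm.commutes c⟩
  obtain ⟨Pa, hPa⟩ := hTPL k F α hα2 P
  obtain ⟨Pt, hPt⟩ := hTPL k F τ.toRingEquiv hτ2 P
  obtain ⟨t, ht, htinj⟩ := hBSE k F hF P (l + 2 * g)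
  obtain ⟨lm, hlm⟩ : ∃ lm : ℕ, l = lm + 1 := ⟨l - 1, by omega⟩
  -- spaces
  let DV : Place k F →₀ ℤ := Finsupp.single Pa (lm : ℤ)
  let DW : Place k F →₀ ℤ := Finsupp.single Pa ((l * lm : ℕ) : ℤ) +
    Finsupp.single Pt ((l + 2 * g : ℕ) : ℤ)
  have hfdV : FiniteDimensional k (RR DV) := (hQR1 k F hF).1 DV
  have hfdW : FiniteDimensional k (RR DW) := (hQR1 k F hF).1 DW
  have htau : ∀ j, τ (t j) ∈ RR (Finsupp.single Pt ((l + 2 * g : ℕ) : ℤ)) := fun j =>
    BSN_transport hTPL τ.toRingEquiv hτ1 P Pt hPt _ _ (ht j).1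
  have hal : ∀ j, α (t j) ∈ RR (Finsupp.single Pa ((l + 2 * g : ℕ) : ℤ)) := fun j =>
    BSN_transport hTPL α hα1 P Pa hPa _ _ (ht j).1
  have hterm : ∀ (s : F), s ∈ RR DV → ∀ j, s ^ l * τ (t j) ∈ RR DW := by
    intro s hs j
    rw [BSN_mem]
    intro Q
    have h1 := (BSN_mem _ _).1 hs Q
    have h2 := (BSN_mem _ _).1 (htau j) Q
    have h3 := (h1.pow l).mul h2
    refine h3.mono ?_
    show -((Finsupp.single Pa ((l * lm : ℕ) : ℤ) + Finsupp.single Pt ((l + 2 * g : ℕ) : ℤ)) Q) ≤
      (l : ℤ) * -(Finsupp.single Pa (lm : ℤ) Q) + -(Finsupp.single Pt ((l + 2 * g : ℕ) : ℤ) Q)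
    rw [Finsupp.add_apply]
    have h4 : (Finsupp.single Pa ((l * lm : ℕ) : ℤ) Q : ℤ) =
        (l : ℤ) * Finsupp.single Pa (lm : ℤ) Q := by
      by_cases hQ : Q = Pa
      · rw [hQ, Finsupp.single_eq_same, Finsupp.single_eq_same]
        push_cast
        ring
      · rw [Finsupp.single_eq_of_ne hQ, Finsupp.single_eq_of_ne hQ, mul_zero]
    rw [h4]
    linarith
  let Θ : (Fin (ell (Finsupp.single P ((l + 2 * g : ℕ) : ℤ))) → RR DV) →+ RR DW :=
    { toFun := fun v => ⟨∑ j, ((v j : RR DV) : F) ^ l * τ (t j),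
        Submodule.sum_mem _ fun j _ => hterm _ (v j).2 j⟩
      map_zero' := by
        apply Subtype.ext
        show ∑ j, ((0 : F)) ^ l * τ (t j) = 0
        apply Finset.sum_eq_zero
        intro j _
        rw [zero_pow (by omega), zero_mul]
      map_add' := by
        intro v w
        apply Subtype.ext
        show ∑ j, ((v j : F) + (w j : F)) ^ l * τ (t j) =
          ∑ j, (v j : F) ^ l * τ (t j) + ∑ j, (w j : F) ^ l * τ (t j)
        rw [← Finset.sum_add_distrib]
        apply Finset.sum_congr rfl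
        intro j _
        rw [hl, add_pow_char_pow, add_mul] }
  have hΘ : ∀ v, ((Θ v : RR DW) : F) = ∑ j, ((v j : RR DV) : F) ^ l * τ (t j) := fun _ => rfl
  have hsemi : ∀ (c : k) v, Θ (c • v) = iterateFrobeniusEquiv k p n c • Θ v := by
    intro c v
    apply Subtype.ext
    rw [hΘ, Submodule.coe_smul, hΘ, Finset.smul_sum]
    apply Finset.sum_congr rfl
    intro j _
    show (c • ((v j : RR DV) : F)) ^ l * τ (t j) = _
    have h1 : iterateFrobeniusEquiv k p n c = c ^ l := by
      rw [iterateFrobeniusEquiv_def, hl]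
    rw [smul_pow, smul_mul_assoc, h1]
  have hdim : Module.finrank k (RR DW) <
      Module.finrank k (Fin (ell (Finsupp.single P ((l + 2 * g : ℕ) : ℤ))) → RR DV) := by
    rw [Module.finrank_pi_fintype, Finset.sum_const, Finset.card_univ, Fintype.card_fin, smul_eq_mul]
    have h1 := (hQR3 k F hF g hg).1 (Finsupp.single P ((l + 2 * g : ℕ) : ℤ))
    have h2 := (hQR3 k F hF g hg).1 DV
    have h3 := ((hQR1 k F hF).2.2 0 DW (by
      show (0 : Place k F →₀ ℤ) ≤ _
      exact add_nonneg (Finsupp.single_nonneg.2 (by positivity))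
        (Finsupp.single_nonneg.2 (by positivity)))).2
    rw [(hQR1 k F hF).2.1] at h3
    have h4 : degD DW = (l : ℤ) * lm + (l + 2 * g) := by
      show degD (_ + _) = _
      rw [BSN_degadd, BSN_deg, BSN_deg]
      push_cast
      ring
    have h5 : degD (0 : Place k F →₀ ℤ) = 0 := by
      unfold degD
      exact Finsupp.sum_zero_index
    have h6 : degD DV = lm := BSN_deg _ _
    rw [h4, h5] at h3
    rw [BSN_deg] at h1
    rw [h6] at h2
    show ell DW < ell (Finsupp.single P ((l + 2 * g : ℕ) : ℤ)) * ell DV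
    generalize ell DW = w at *
    generalize ell (Finsupp.single P ((l + 2 * g : ℕ) : ℤ)) = a at *
    generalize ell DV = b at *
    zify
    push_cast at h1 h3
    have hlz : (l : ℤ) = lm + 1 := by
      rw [hlm]
      push_cast
      ring
    have hglz : (g : ℤ) ^ 2 + 3 * g + 1 < l := by exact_mod_cast hgl
    have ha : (l : ℤ) + g + 1 ≤ a := by linarith
    have hb : (l : ℤ) - g ≤ b := by linarith
    have hg0 : (0 : ℤ) ≤ g := by positivity
    have hb0 : (0 : ℤ) ≤ (l : ℤ) - g := by nlinarith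
    have ha0 : (0 : ℤ) ≤ (l : ℤ) + g + 1 := by positivity
    have hab : ((l : ℤ) + g + 1) * (l - g) ≤ a * b := mul_le_mul ha hb hb0 (by linarith)
    have hw : (w : ℤ) ≤ 1 + ((l : ℤ) * lm + (l + 2 * g)) := by
      have := h3
      linarith
    have hlm' : (lm : ℤ) = l - 1 := by linarith
    rw [hlm'] at hw
    nlinarith
  obtain ⟨v, hv0, hv⟩ := hSLK k _ _ (iterateFrobeniusEquiv k p n) Θ hsemi hdim
  have hs : ∀ j, ((v j : RR DV) : F) ∈ RR (Finsupp.single Pa (lm : ℤ)) := fun j => (v j).2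
  have hs1 : ∀ j, Pa.Ge (-(lm : ℤ)) ((v j : RR DV) : F) := fun j => ((BSN_single _ _ _).1 (hs j)).1
  have hs2 : ∀ j, ((v j : RR DV) : F) ∈ Reg Pa := fun j => ((BSN_single _ _ _).1 (hs j)).2
  have ha1 : ∀ j, Pa.Ge (-((l + 2 * g : ℕ) : ℤ)) (α (t j)) := fun j =>
    ((BSN_single _ _ _).1 (hal j)).1
  have ha2 : ∀ j, α (t j) ∈ Reg Pa := fun j => ((BSN_single _ _ _).1 (hal j)).2
  have hGne : ∑ j, ((v j : RR DV) : F) * α (t j) ^ l ≠ 0 := by
    apply BSN_ne l (by omega) Pa (fun j => ((v j : RR DV) : F)) (fun j => α (t j) ^ l)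
      (fun j => P.ord (t j)) htinj
    · by_contra hcon
      push Not at hcon
      apply hv0
      funext j
      apply Subtype.ext
      exact hcon j
    · intro j hj
      have h1 := (hs1 j).le hj
      have hlz : (l : ℤ) = lm + 1 := by
        rw [hlm]
        push_cast
        ring
      rw [hlz]
      linarith
    · intro j hj
      exact BSN_le_zero hQV4 hQV5 hF Pa _ hj (hs2 j)
    · intro j
      apply pow_ne_zero
      intro h
      exact (ht j).2 ((map_eq_zero_iff α α.injective).1 h)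
    · intro j
      have h1 : α (t j) ≠ 0 := by
        intro h
        exact (ht j).2 ((map_eq_zero_iff α α.injective).1 h)
      show Pa.ord (α (t j) ^ l) = _
      rw [Pa.ord_pow h1, hPa]
  refine ⟨Pa, Pt, _, fun j => ((v j : RR DV) : F), t, hs2, ?_, ?_, ?_, hGne, ?_⟩
  · intro j
    exact ((BSN_single _ _ _).1 (htau j)).2
  · rw [← hΘ, hv]
    rfl
  · exact Subalgebra.sum_mem _ fun j _ => Subalgebra.mul_mem _ (hs2 j) (Subalgebra.pow_mem _ (ha2 j) l)
  · have h1 : Pa.Ge (-((l : ℤ) * (l + 2 * g) + l - 1)) (∑ j, ((v j : RR DV) : F) * α (t j) ^ l) := by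
      apply Place.Ge.sum
      intro j _
      refine ((hs1 j).mul ((ha1 j).pow l)).mono ?_
      have hlz : (l : ℤ) = lm + 1 := by
        rw [hlm]
        push_cast
        ring
      push_cast
      rw [hlz]
      linarith
    exact h1.le hGne

end

end MX
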